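import Pool.Agent.U485.SM.Stm

/-!
Package LOW of project HT: the truncated singular series of an admissible system is bounded below.
-/

set_option autoImplicit false

open Finset

namespace Pool.Agent.U803.HT

open Pool.Agent.U485.SM

lemma card_Om_le (F : Finset (ℤ × ℤ)) (t : ℤ × ℤ → ℕ) (p : ℕ) (hp : p.Prime)
    (hF : ∀ f ∈ F, IsCoprime f.1 f.2) :
    (Om F t p).card ≤ (F.filter (fun f => p ≤ t f)).card := by
  classical
  have hpp : Prime (p : ℤ) := Nat.prime_iff_prime_int.1 hp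
  refine Finset.card_le_card_of_forall_subsingleton
    (fun (r : ℕ) (f : ℤ × ℤ) => (p : ℤ) ∣ Pool.Agent.U485.SM.val f r) ?_ ?_
  · intro r hr
    unfold Om at hr
    rw [mem_filter] at hr
    obtain ⟨_, f, hf, hpt, hd⟩ := hr
    exact ⟨f, by simp [hf, hpt], hd⟩
  · intro f hf a ha b hb
    rw [mem_filter] at hf
    have ha1 : a < p := by
      have := ha.1
      unfold Om at this
      rw [mem_filter, mem_range] at this
      exact this.1
    have hb1 : b < p := by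
      have := hb.1
      unfold Om at this
      rw [mem_filter, mem_range] at this
      exact this.1
    have ha2 : (p : ℤ) ∣ val f a := ha.2
    have hb2 : (p : ℤ) ∣ val f b := hb.2
    unfold Pool.Agent.U485.SM.val at ha2 hb2
    have h1 : (p : ℤ) ∣ f.1 * ((a : ℤ) - b) := by
      have := dvd_sub ha2 hb2
      have e : f.1 * (a : ℤ) + f.2 - (f.1 * (b : ℤ) + f.2) = f.1 * ((a : ℤ) - b) := by ring
      rwa [e] at this
    rcases hpp.dvd_or_dvd h1 with h2 | h2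
    · exfalso
      have h3 : (p : ℤ) ∣ f.2 := (dvd_add_right (h2.mul_right _)).1 ha2
      exact hpp.not_isUnit ((hF f hf.1).isUnit_of_dvd' h2 h3)
    · have h4 : (a : ℤ) ≡ b [ZMOD p] := ((Int.modEq_iff_dvd).2 (by
        have := (dvd_neg).2 h2
        rwa [neg_sub] at this))
      have h5 : a ≡ b [MOD p] := (Int.natCast_modEq_iff).1 h4
      have h6 := h5
      unfold Nat.ModEq at h6
      rwa [Nat.mod_eq_of_lt ha1, Nat.mod_eq_of_lt hb1] at h6

lemma card_Om_lt (F : Finset (ℤ × ℤ)) (t : ℤ × ℤ → ℕ) (p : ℕ) (hp : p.Prime)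
    (h : ∃ r : ℕ, ∀ f ∈ F, ¬ (p : ℤ) ∣ val f r) : (Om F t p).card + 1 ≤ p := by
  classical
  obtain ⟨r, hr⟩ := h
  have h1 : Om F t p ⊆ (range p).erase (r % p) := by
    intro s hs
    unfold Om at hs
    rw [mem_filter] at hs
    obtain ⟨hs1, f, hf, _, hd⟩ := hs
    rw [mem_erase]
    refine ⟨?_, hs1⟩
    rintro rfl
    apply hr f hf
    unfold Pool.Agent.U485.SM.val at hd ⊢
    have h2 : (p : ℤ) ∣ (r : ℤ) - ((r % p : ℕ) : ℤ) := by
      rw [Int.natCast_mod]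
      exact Int.dvd_self_sub_emod
    have h3 : (p : ℤ) ∣ f.1 * ((r : ℤ) - ((r % p : ℕ) : ℤ)) := h2.mul_left _
    have h4 := dvd_add h3 hd
    have e : f.1 * ((r : ℤ) - ((r % p : ℕ) : ℤ)) + (f.1 * ((r % p : ℕ) : ℤ) + f.2) = f.1 * (r : ℤ) + f.2 := by ring
    rwa [e] at h4
  have h2 := card_le_card h1
  rw [card_erase_of_mem (mem_range.2 (Nat.mod_lt _ hp.pos)), card_range] at h2
  have := hp.pos
  omega

/-- the local factor -/
noncomputable def g (F : Finset (ℤ × ℤ)) (t : ℤ × ℤ → ℕ) (p : ℕ) : ℝ :=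
  (1 - ((Om F t p).card : ℝ) / p) * ((1 - 1 / (p : ℝ))⁻¹) ^ (F.filter (fun f => p ≤ t f)).card

lemma Sg_eq (F : Finset (ℤ × ℤ)) (t : ℤ × ℤ → ℕ) : Sg F t = ∏ p ∈ Pr (F.sup t), g F t p := by
  classical
  unfold Sg g
  rw [prod_mul_distrib]
  congr 1
  have h1 : ∀ f ∈ F, W (t f) = ∏ p ∈ Pr (F.sup t), (if p ≤ t f then (1 - 1 / (p : ℝ))⁻¹ else 1) := by
    intro f hf
    unfold W
    rw [← prod_filter]
    congr 1
    ext p
    unfold Pr
    have := Finset.le_sup (f := t) hf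
    simp only [mem_filter, mem_Icc]
    constructor
    · rintro ⟨⟨h1, h2⟩, h3⟩
      exact ⟨⟨⟨h1, h2.trans this⟩, h3⟩, h2⟩
    · rintro ⟨⟨⟨h1, _⟩, h3⟩, h2⟩
      exact ⟨⟨h1, h2⟩, h3⟩
  rw [prod_congr rfl h1, prod_comm]
  refine prod_congr rfl fun p _ => ?_
  rw [← prod_filter, prod_const]

lemma inv_ge (p : ℕ) (hp : p.Prime) : 1 + 1 / (p : ℝ) ≤ (1 - 1 / (p : ℝ))⁻¹ := by
  have h2 : (2 : ℝ) ≤ p := by exact_mod_cast hp.two_le
  have h0 : 0 < 1 / (p : ℝ) := by positivity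
  have h1 : 1 / (p : ℝ) ≤ 1 / 2 := one_div_le_one_div_of_le (by norm_num) h2
  have h3 : 0 < 1 - 1 / (p : ℝ) := by linarith
  rw [← one_div, le_div_iff₀ h3]
  nlinarith

lemma g_ge_one (F : Finset (ℤ × ℤ)) (t : ℤ × ℤ → ℕ) (p : ℕ) (hp : p.Prime)
    (h : ∃ r : ℕ, ∀ f ∈ F, ¬ (p : ℤ) ∣ val f r) : 1 / (p : ℝ) ≤ g F t p := by
  have h1 := card_Om_lt F t p hp h
  have hp0 : (0 : ℝ) < p := by exact_mod_cast hp.pos
  have h2 : 1 / (p : ℝ) ≤ 1 - ((Om F t p).card : ℝ) / p := by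
    have h3 : ((Om F t p).card : ℝ) + 1 ≤ p := by exact_mod_cast h1
    rw [le_sub_iff_add_le, ← add_div, div_le_one hp0]
    linarith
  have h4 : (1 : ℝ) ≤ ((1 - 1 / (p : ℝ))⁻¹) ^ (F.filter (fun f => p ≤ t f)).card := by
    apply one_le_pow₀
    have := inv_ge p hp
    have h0 : 0 < 1 / (p : ℝ) := by positivity
    linarith
  unfold g
  have h5 : 0 < 1 / (p : ℝ) := by positivity
  calc 1 / (p : ℝ) = 1 / (p : ℝ) * 1 := (mul_one _).symm
    _ ≤ _ := mul_le_mul h2 h4 zero_le_one (by linarith)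

lemma g_ge_two (F : Finset (ℤ × ℤ)) (t : ℤ × ℤ → ℕ) (p k : ℕ) (hp : p.Prime) (hk : F.card ≤ k) (hkp : k < p)
    (hF : ∀ f ∈ F, IsCoprime f.1 f.2) : 1 - (k : ℝ) ^ 2 / (p : ℝ) ^ 2 ≤ g F t p := by
  have h1 := card_Om_le F t p hp hF
  have hp0 : (0 : ℝ) < p := by exact_mod_cast hp.pos
  unfold g
  set m := (F.filter (fun f => p ≤ t f)).card with hm
  have hmk : m ≤ k := (card_filter_le _ _).trans hk
  have hmp : (m : ℝ) / p ≤ 1 := by
    rw [div_le_one hp0]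
    exact_mod_cast (hmk.trans hkp.le)
  have hm0 : (0 : ℝ) ≤ (m : ℝ) / p := by positivity
  have h2 : 1 - (m : ℝ) / p ≤ 1 - ((Om F t p).card : ℝ) / p := by
    have : ((Om F t p).card : ℝ) / p ≤ (m : ℝ) / p := by
      apply div_le_div_of_nonneg_right _ hp0.le
      exact_mod_cast h1
    linarith
  have h3 : 1 + (m : ℝ) / p ≤ ((1 - 1 / (p : ℝ))⁻¹) ^ m := by
    have h4 : 1 + (m : ℝ) * (1 / (p : ℝ)) ≤ (1 + 1 / (p : ℝ)) ^ m := by
      apply one_add_mul_le_pow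
      have : 0 < 1 / (p : ℝ) := by positivity
      linarith
    have h5 : (1 + 1 / (p : ℝ)) ^ m ≤ ((1 - 1 / (p : ℝ))⁻¹) ^ m :=
      pow_le_pow_left₀ (by positivity) (inv_ge p hp) m
    calc 1 + (m : ℝ) / p = 1 + (m : ℝ) * (1 / (p : ℝ)) := by ring
      _ ≤ _ := h4.trans h5
  have h6 : (1 - (m : ℝ) / p) * (1 + (m : ℝ) / p) ≤
      (1 - ((Om F t p).card : ℝ) / p) * ((1 - 1 / (p : ℝ))⁻¹) ^ m :=
    mul_le_mul h2 h3 (by linarith) (by linarith)
  refine le_trans ?_ h6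
  have h7 : (m : ℝ) / p ≤ (k : ℝ) / p := by
    apply div_le_div_of_nonneg_right _ hp0.le
    exact_mod_cast hmk
  have h8 : ((m : ℝ) / p) ^ 2 ≤ ((k : ℝ) / p) ^ 2 := pow_le_pow_left₀ hm0 h7 2
  have h9 : (1 - (m : ℝ) / p) * (1 + (m : ℝ) / p) = 1 - ((m : ℝ) / p) ^ 2 := by ring
  rw [h9, div_pow]
  rw [div_pow, div_pow] at h8
  linarith

/-- the minorant -/
noncomputable def h (N k n : ℕ) : ℝ := if n ≤ N then 1 / (N : ℝ) else 1 - (k : ℝ) ^ 2 / (n : ℝ) ^ 2

lemma h_nonneg (N k n : ℕ) (hN : 2 * k ^ 2 + 2 ≤ N) : 0 ≤ h N k n := by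
  unfold h
  split_ifs with h1
  · positivity
  · have h2 : k ≤ n := by nlinarith
    have hn : 0 < n := by omega
    have h3 : (k : ℝ) ^ 2 ≤ (n : ℝ) ^ 2 := by
      apply pow_le_pow_left₀ (by positivity)
      exact_mod_cast h2
    have hn' : (0 : ℝ) < (n : ℝ) ^ 2 := by positivity
    have : (k : ℝ) ^ 2 / (n : ℝ) ^ 2 ≤ 1 := (div_le_one hn').2 h3
    linarith

lemma h_le_one (N k n : ℕ) (hN : 2 * k ^ 2 + 2 ≤ N) : h N k n ≤ 1 := by
  unfold h
  split_ifs with h1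
  · have : (1 : ℝ) ≤ N := by
      have : 1 ≤ N := by omega
      exact_mod_cast this
    rw [div_le_one (by linarith)]
    exact this
  · have : 0 ≤ (k : ℝ) ^ 2 / (n : ℝ) ^ 2 := by positivity
    linarith

lemma prod_small (N k z : ℕ) (hN : 2 * k ^ 2 + 2 ≤ N) (hz : z ≤ N) :
    (1 / (N : ℝ)) ^ N ≤ ∏ n ∈ Finset.Icc 1 z, h N k n := by
  have h1 : ∏ n ∈ Finset.Icc 1 z, h N k n = (1 / (N : ℝ)) ^ z := by
    rw [prod_congr rfl (g := fun _ => 1 / (N : ℝ))]
    · rw [prod_const, Nat.card_Icc]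
      simp
    · intro n hn
      rw [mem_Icc] at hn
      unfold h
      rw [if_pos (hn.2.trans hz)]
  rw [h1]
  have hN1 : (1 : ℝ) ≤ N := by
    have : 1 ≤ N := by omega
    exact_mod_cast this
  apply pow_le_pow_of_le_one (by positivity) _ hz
  rw [div_le_one (by linarith)]
  exact hN1

lemma prod_large (N k : ℕ) (hN : 2 * k ^ 2 + 2 ≤ N) (j : ℕ) :
    (1 / (N : ℝ)) ^ N * (1 - (k : ℝ) ^ 2 * (1 / (N : ℝ) - 1 / ((N + j : ℕ) : ℝ))) ≤
      ∏ n ∈ Finset.Icc 1 (N + j), h N k n := by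
  have hN0 : (0 : ℝ) < N := by
    have : 0 < N := by omega
    exact_mod_cast this
  induction j with
  | zero =>
    have := prod_small N k N hN le_rfl
    simpa using this
  | succ j ih =>
    rw [← add_assoc, Finset.prod_Icc_succ_top (by omega)]
    have h0 := h_nonneg N k (N + j + 1) hN
    have e : h N k (N + j + 1) = 1 - (k : ℝ) ^ 2 / ((N + j + 1 : ℕ) : ℝ) ^ 2 := by
      unfold h
      rw [if_neg (by omega)]
    refine le_trans ?_ (mul_le_mul_of_nonneg_right ih h0)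
    rw [mul_assoc]
    apply mul_le_mul_of_nonneg_left _ (by positivity)
    rw [e]
    set y : ℝ := ((N + j : ℕ) : ℝ) with hy
    have hy0 : 0 < y := by
      have : 0 < N + j := by omega
      rw [hy]
      exact_mod_cast this
    have hyN : (N : ℝ) ≤ y := by
      rw [hy]
      exact_mod_cast Nat.le_add_right N j
    have hc : ((N + j + 1 : ℕ) : ℝ) = y + 1 := by
      rw [hy]
      push_cast
      ring
    rw [hc]
    have h1 : 0 ≤ (k : ℝ) ^ 2 * (1 / (N : ℝ) - 1 / y) := by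
      apply mul_nonneg (by positivity)
      have := one_div_le_one_div_of_le hN0 hyN
      linarith
    have h2 : 0 ≤ (k : ℝ) ^ 2 / (y + 1) ^ 2 := by positivity
    have h3 : (k : ℝ) ^ 2 / (y + 1) ^ 2 ≤ (k : ℝ) ^ 2 * (1 / y - 1 / (y + 1)) := by
      rw [div_eq_mul_one_div]
      apply mul_le_mul_of_nonneg_left _ (by positivity)
      rw [div_sub_div _ _ (by positivity) (by positivity), div_le_div_iff₀ (by positivity) (by positivity)]
      nlinarith
    nlinarith [mul_nonneg h1 h2]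

lemma prod_h (N k z : ℕ) (hN : 2 * k ^ 2 + 2 ≤ N) :
    (1 / (N : ℝ)) ^ N * (1 / 2) ≤ ∏ n ∈ Finset.Icc 1 z, h N k n := by
  have hN0 : (0 : ℝ) < N := by
    have : 0 < N := by omega
    exact_mod_cast this
  have hp : 0 ≤ (1 / (N : ℝ)) ^ N := by positivity
  rcases le_total z N with hz | hz
  · have := prod_small N k z hN hz
    linarith
  · obtain ⟨j, rfl⟩ := Nat.exists_eq_add_of_le hz
    refine le_trans ?_ (prod_large N k hN j)
    apply mul_le_mul_of_nonneg_left _ hp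
    have h1 : (k : ℝ) ^ 2 * (1 / (N : ℝ)) ≤ 1 / 2 := by
      have h2 : 2 * (k : ℝ) ^ 2 + 2 ≤ N := by exact_mod_cast hN
      rw [mul_one_div, div_le_iff₀ hN0]
      linarith
    have h3 : 0 ≤ (k : ℝ) ^ 2 * (1 / ((N + j : ℕ) : ℝ)) := by positivity
    nlinarith

theorem t_LOW : S_LOW := by
  intro k
  set N : ℕ := 2 * k ^ 2 + 2 with hNdef
  have hN : 2 * k ^ 2 + 2 ≤ N := le_rfl
  have hN0 : (0 : ℝ) < N := by
    have : 0 < N := by omega
    exact_mod_cast this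
  refine ⟨(1 / (N : ℝ)) ^ N * (1 / 2), by positivity, ?_⟩
  intro F t hFk hF hadm
  rw [Sg_eq]
  refine (prod_h N k (F.sup t) hN).trans ?_
  have h1 : ∏ n ∈ Finset.Icc 1 (F.sup t), h N k n ≤ ∏ n ∈ Pr (F.sup t), h N k n := by
    have hsub : Pr (F.sup t) ⊆ Finset.Icc 1 (F.sup t) := filter_subset _ _
    rw [← prod_sdiff hsub]
    have h2 : ∏ n ∈ Finset.Icc 1 (F.sup t) \ Pr (F.sup t), h N k n ≤ 1 :=
      prod_le_one (fun n _ => h_nonneg N k n hN) (fun n _ => h_le_one N k n hN)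
    have h3 : 0 ≤ ∏ n ∈ Pr (F.sup t), h N k n := prod_nonneg fun n _ => h_nonneg N k n hN
    nlinarith
  refine h1.trans (prod_le_prod (fun p _ => h_nonneg N k p hN) ?_)
  intro p hp
  unfold Pr at hp
  rw [mem_filter] at hp
  have hpp := hp.2
  unfold h
  split_ifs with h2
  · refine le_trans ?_ (g_ge_one F t p hpp (hadm p hpp))
    have hp0 : (0 : ℝ) < p := by exact_mod_cast hpp.pos
    apply one_div_le_one_div_of_le hp0
    exact_mod_cast h2
  · apply g_ge_two F t p k hpp hFk _ hF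
    have : N < p := not_le.1 h2
    nlinarith

end Pool.Agent.U803.HT
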